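import Mathlib

/-!
# MP_2c1b2b_gt: linear size sparsification of zonotopes. Interfaces (statements only)

See `Blueprint.md` for the paper proof and the division into modules.
-/

open MeasureTheory
open scoped BigOperators ENNReal Pointwise RealInnerProductSpace

namespace Pool.Agent.Lib.MP_2c1b2b_gt

noncomputable section

/-- The Euclidean space. -/
abbrev E (n : ℕ) : Type := EuclideanSpace ℝ (Fin n)

/-- The square of the Euclidean norm of a vector of coefficients. -/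
def sq {N : ℕ} (x : Fin N → ℝ) : ℝ := ∑ i, x i ^ 2

/-- The standard (not normalised) Gaussian weight of a set: `∫_S exp (-|x|² / 2)`. -/
def gw {N : ℕ} (S : Set (Fin N → ℝ)) : ℝ≥0∞ :=
  ∫⁻ x in S, ENNReal.ofReal (Real.exp (-(sq x) / 2))

/-- The norm of the zonotope `∑ [-v i, v i]`. -/
def zn {n N : ℕ} (v : Fin N → E n) (x : E n) : ℝ := ∑ i, |⟪v i, x⟫|

/-- Module PL: the Prékopa–Leindler inequality. -/
def PLStatement : Prop :=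
  ∀ (N : ℕ) (f g h : (Fin N → ℝ) → ℝ≥0∞), Measurable f → Measurable g → Measurable h →
    ∀ l : ℝ, 0 < l → l < 1 →
      (∀ x y, f x ^ l * g y ^ (1 - l) ≤ h (l • x + (1 - l) • y)) →
        (∫⁻ x, f x) ^ l * (∫⁻ x, g x) ^ (1 - l) ≤ ∫⁻ x, h x

/-- Module U, first part: contracting coordinates increases the Gaussian measure of a symmetric
convex set. -/
def ContractStatement : Prop :=
  ∀ (N : ℕ) (S : Set (Fin N → ℝ)), MeasurableSet S → Convex ℝ S → (∀ x ∈ S, -x ∈ S) →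
    ∀ k : Fin N → ℝ, (∀ i, |k i| ≤ 1) → gw S ≤ gw {x | (fun i => k i * x i) ∈ S}

/-- Module U, second part (Šidák's lemma). -/
def SidakStatement : Prop :=
  ∀ (N : ℕ) (S : Set (Fin N → ℝ)), MeasurableSet S → Convex ℝ S → (∀ x ∈ S, -x ∈ S) →
    ∀ I : Finset (Fin N), gw S ≤ 3 ^ I.card * gw (S ∩ {x | ∀ i ∈ I, |x i| ≤ 1 / 2})

/-- Module PC: partial colourings. -/
def PCStatement : Prop :=
  ∀ C : ℝ, 0 < C → ∃ lam : ℝ, 0 < lam ∧ ∃ c : ℝ, 0 < c ∧ ∃ N₀ : ℕ, ∀ N : ℕ, N₀ ≤ N →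
    ∀ Q : Set (Fin N → ℝ), IsClosed Q → Convex ℝ Q → (∀ x ∈ Q, -x ∈ Q) →
      ENNReal.ofReal (Real.exp (-(C * N))) ≤ gw Q →
        ∃ w : Fin N → ℝ, w ∈ lam • Q ∧ (∀ i, |w i| ≤ 1) ∧
          c * N ≤ ((Finset.univ.filter (fun i => w i = -1)).card : ℝ)

/-- `χ s = s - ∫_0^s exp (-r² / 2)`. -/
def chi (s : ℝ) : ℝ := s - ∫ r in (0 : ℝ)..s, Real.exp (-r ^ 2 / 2)

/-- Module B: transport. -/
def TransportStatement : Prop :=
  ∀ (N m : ℕ) (a : Fin m → Fin N → ℝ) (c : Fin m → ℝ), (∀ j, sq (a j) = 1) → (∀ j, 0 ≤ c j) →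
    (∀ y : Fin N → ℝ, (∑ j, c j * (∑ i, a j i * y i) ^ 2) ≤ sq y) →
      ∀ S : Set (Fin N → ℝ), MeasurableSet S →
        (∀ y : Fin N → ℝ, (fun k => y k - ∑ j, c j * chi (∑ i, a j i * y i) * a j k) ∈ S) →
          ENNReal.ofReal ((2 * Real.pi) ^ ((N : ℝ) / 2) * Real.exp (-(∑ j, c j) / 2)) ≤ gw S

/-- Module L: Lewis' position. -/
def LewisStatement : Prop :=
  ∀ (n N : ℕ) (v : Fin N → E n), (∀ i, v i ≠ 0) → (∀ x, (∀ i, ⟪v i, x⟫ = 0) → x = 0) →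
    ∃ A : E n ≃ₗ[ℝ] E n, ∀ x y : E n,
      ∑ i, ⟪A (v i), x⟫ * ⟪A (v i), y⟫ / ‖A (v i)‖ = ⟪x, y⟫

/-- Module A: the Gaussian measure of the two-sided body. -/
def VolStatement : Prop :=
  ∀ (n N : ℕ), 1 ≤ n → n ≤ N → ∀ v : Fin N → E n, (∀ i, v i ≠ 0) →
    (∀ x, (∀ i, ⟪v i, x⟫ = 0) → x = 0) →
      ENNReal.ofReal (Real.exp (-(32 * N))) ≤
        gw {z : Fin N → ℝ | ∀ x, abs (∑ i, z i * |⟪v i, x⟫|) ≤ 5 * Real.sqrt (n / N) * zn v x}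

/-- Module I: sparsification. -/
def SparseStatement : Prop :=
  ∀ ε : ℝ, 0 < ε → ∃ C : ℝ, 0 < C ∧ ∀ (n N : ℕ) (v : Fin N → E n),
    ∃ (m : ℕ) (w : Fin m → E n), (m : ℝ) ≤ C * n ∧
      ∀ x, (1 - ε) * zn v x ≤ zn w x ∧ zn w x ≤ (1 + ε) * zn v x

/-- Module Z: the statement on zonoids (the frozen statement S12948). -/
def ZonoidStatement : Prop :=
    ¬ (∃ ε : ℝ, 0 < ε ∧ ∀ C : ℝ, ∃ n : ℕ, ∃ K : Set (EuclideanSpace ℝ (Fin n)),
      IsCompact K ∧ (interior K).Nonempty ∧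
      (∀ δ : ℝ, 0 < δ → ∃ m : ℕ, ∃ v : Fin m → EuclideanSpace ℝ (Fin n),
          Metric.hausdorffDist K (∑ i, segment ℝ (-v i) (v i)) < δ) ∧
      ¬ ∃ m : ℕ, (m : ℝ) ≤ C * n ∧
          ∃ v : Fin m → EuclideanSpace ℝ (Fin n),
          ∃ T : EuclideanSpace ℝ (Fin n) ≃ₗ[ℝ] EuclideanSpace ℝ (Fin n),
            T '' K ⊆ ∑ i, segment ℝ (-v i) (v i) ∧
            ∑ i, segment ℝ (-v i) (v i) ⊆ (1 + ε) • (T '' K))

end

end Pool.Agent.Lib.MP_2c1b2b_gt
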